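import Pool.Agent.H65.EN.Targets

/-!
Row CND of the board enx: triangular count of the coefficients with conditions on a disc.
-/

set_option autoImplicit false

open Finset MeasureTheory
open scoped Polynomial

namespace Pool.Agent.H49.EN

open Pool.Agent.H24.CL Pool.Agent.H24.LV Pool.Agent.H31.LV Pool.Agent.H50.LV Pool.Agent.H65.EN

private lemma cnd_count (p m e : ℕ) (hp : 0 < p) (he : e ≤ m) (x0 : ℤ) (S : Finset ℤ)
    (hS : ∀ x ∈ S, 0 ≤ x ∧ x < (p : ℤ) ^ m ∧ (p : ℤ) ^ e ∣ x - x0) : S.card ≤ p ^ (m - e) := by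
  have hp' : (0 : ℤ) < p := by exact_mod_cast hp
  have hpe : (0 : ℤ) < (p : ℤ) ^ e := by positivity
  rw [← Finset.card_range (p ^ (m - e))]
  refine Finset.card_le_card_of_injOn (fun x => (x / (p : ℤ) ^ e).toNat) ?_ ?_
  · intro x hx
    obtain ⟨h0, h1, h2⟩ := hS x hx
    rw [Finset.coe_range, Set.mem_Iio]
    have h3 : x / (p : ℤ) ^ e < (p : ℤ) ^ (m - e) := by
      apply Int.ediv_lt_of_lt_mul hpe
      rw [← pow_add, show m - e + e = m by omega]
      exact h1
    have h4 : 0 ≤ x / (p : ℤ) ^ e := Int.ediv_nonneg h0 hpe.le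
    have h5 : ((x / (p : ℤ) ^ e).toNat : ℤ) < ((p ^ (m - e) : ℕ) : ℤ) := by
      rw [Int.toNat_of_nonneg h4]
      push_cast
      exact h3
    exact_mod_cast h5
  · intro x hx x' hx' hxx
    obtain ⟨h0, h1, h2⟩ := hS x hx
    obtain ⟨h0', h1', h2'⟩ := hS x' hx'
    have h4 : 0 ≤ x / (p : ℤ) ^ e := Int.ediv_nonneg h0 hpe.le
    have h4' : 0 ≤ x' / (p : ℤ) ^ e := Int.ediv_nonneg h0' hpe.le
    have hq : x / (p : ℤ) ^ e = x' / (p : ℤ) ^ e := by
      rw [← Int.toNat_of_nonneg h4, ← Int.toNat_of_nonneg h4']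
      exact_mod_cast hxx
    have hd : (p : ℤ) ^ e ∣ x - x' := by
      have h6 := dvd_sub h2 h2'
      rwa [show x - x0 - (x' - x0) = x - x' by ring] at h6
    have hm : x % (p : ℤ) ^ e = x' % (p : ℤ) ^ e :=
      Int.emod_eq_emod_iff_emod_sub_eq_zero.2 (Int.emod_eq_zero_of_dvd hd)
    rw [← Int.mul_ediv_add_emod x ((p : ℤ) ^ e), ← Int.mul_ediv_add_emod x' ((p : ℤ) ^ e), hq, hm]

/-- Hasse derivative of one term -/
private lemma cnd_term (k n : ℕ) (c : ℤ) (y : ℤ) :
    (Polynomial.hasseDeriv k (Polynomial.C c * Polynomial.X ^ n)).eval y =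
      (n.choose k : ℤ) * c * y ^ (n - k) := by
  rw [Polynomial.C_mul_X_pow_eq_monomial, Polynomial.hasseDeriv_monomial,
    Polynomial.eval_monomial]

private lemma cnd_hasse (d k : ℕ) (a : Fin d → ℕ) (y : ℤ) :
    (Polynomial.hasseDeriv k (Fp a)).eval y =
      ∑ t : Fin d, if t.val = 0 then 0 else
        ((t.val + 1).choose k : ℤ) * (a t : ℤ) * y ^ (t.val + 1 - k) := by
  unfold Fp
  rw [map_sum, Polynomial.eval_finset_sum]
  refine Finset.sum_congr rfl fun t _ => ?_
  split_ifs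
  · simp
  · exact cnd_term k (t.val + 1) (a t) y

/-- the difference of two values -/
private lemma cnd_diff (d : ℕ) (a b : Fin d → ℕ) (j : Fin d) (hj : j.val ≠ 0)
    (hab : ∀ t, j < t → a t = b t) (y : ℤ) :
    (Polynomial.hasseDeriv (j.val + 1) (Fp a)).eval y -
      (Polynomial.hasseDeriv (j.val + 1) (Fp b)).eval y = (a j : ℤ) - b j := by
  rw [cnd_hasse, cnd_hasse, ← Finset.sum_sub_distrib, Finset.sum_eq_single j]
  · rw [if_neg hj, if_neg hj, Nat.choose_self, Nat.sub_self]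
    push_cast
    ring
  · intro t _ htj
    by_cases ht0 : t.val = 0
    · rw [if_pos ht0, if_pos ht0, sub_zero]
    · rw [if_neg ht0, if_neg ht0]
      rcases lt_or_gt_of_ne htj with h | h
      · have h1 : (t.val + 1).choose (j.val + 1) = 0 :=
          Nat.choose_eq_zero_of_lt (by have : t.val < j.val := h; omega)
        rw [h1]
        push_cast
        ring
      · rw [hab t h, sub_self]
  · intro h
    exact absurd (Finset.mem_univ j) h

private lemma cnd_main (h1 : T_TRI) (hVAL : Pool.Agent.H26.LV.T_VAL) (d p m i v y : ℕ)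
    (hd : 1 ≤ d) (hp : p.Prime) (hiv : i ≤ v) (hvm : v ≤ m) (S0 : Finset (Fin d → ℕ))
    (hS : ∀ a ∈ S0, (∀ j, a j < p ^ m) ∧
      Pool.Agent.H26.LV.Vge p v (Pool.Agent.H26.LV.dsc p i (y : ℤ) (Fp a)) ∧
      ∀ j : Fin d, j.val = 0 → (p : ℤ) ^ (v - i) ∣
        -(a j : ℤ) - (Polynomial.derivative (Fp a)).eval (y : ℤ)) :
    S0.card ≤ p ^ (m - (v - i)) * ∏ j ∈ Icc 2 d, p ^ (m - (v - i * j)) := by
  classical
  have hpp : 0 < p := hp.pos
  have hpz : (p : ℤ) ≠ 0 := by exact_mod_cast hpp.ne'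
  set cst : (Fin d → ℕ) → (Fin d → ℤ) := fun a j => (a j : ℤ) with hcst
  have hinj : Function.Injective cst := by
    intro a b hab
    funext j
    have := congrFun hab j
    simp only [hcst] at this
    exact_mod_cast this
  set S : Finset (Fin d → ℤ) := S0.image cst with hSdef
  have hcard : S.card = S0.card := Finset.card_image_of_injective _ hinj
  set s : Fin d → ℕ := fun j => if j.val = 0 then p ^ (m - (v - i)) else
    p ^ (m - (v - i * (j.val + 1))) with hs
  have hprod : ∏ j, s j = p ^ (m - (v - i)) * ∏ j ∈ Icc 2 d, p ^ (m - (v - i * j)) := by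
    have e1 : ∏ j, s j = ∏ k ∈ range d, (if k = 0 then p ^ (m - (v - i)) else
        p ^ (m - (v - i * (k + 1)))) :=
      Fin.prod_univ_eq_prod_range (fun k => if k = 0 then p ^ (m - (v - i)) else
        p ^ (m - (v - i * (k + 1)))) d
    obtain ⟨d', rfl⟩ : ∃ d', d = d' + 1 := ⟨d - 1, by omega⟩
    rw [e1, Finset.prod_range_succ', if_pos rfl, mul_comm]
    congr 1
    have e2 : Icc 2 (d' + 1) = Ico 2 (d' + 2) := by
      ext x
      rw [Finset.mem_Icc, Finset.mem_Ico]
      omega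
    rw [e2, Finset.prod_Ico_eq_prod_range]
    refine Finset.prod_congr rfl fun k _ => ?_
    rw [if_neg (by omega), show k + 1 + 1 = 2 + k by omega]
  rw [← hcard, ← hprod]
  refine h1 d S s fun j f hf => ?_
  obtain ⟨b, hb, rfl⟩ := Finset.mem_image.1 hf
  obtain ⟨hb1, hb2, hb3⟩ := hS b hb
  have hmem : ∀ x ∈ (S.filter fun g => ∀ i, j < i → g i = cst b i).image fun g => g j,
      ∃ a ∈ S0, (∀ t, j < t → a t = b t) ∧ x = (a j : ℤ) := by
    intro x hx
    obtain ⟨g, hg, rfl⟩ := Finset.mem_image.1 hx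
    obtain ⟨hgS, hg2⟩ := Finset.mem_filter.1 hg
    obtain ⟨a, ha, rfl⟩ := Finset.mem_image.1 hgS
    refine ⟨a, ha, fun t ht => ?_, rfl⟩
    have := hg2 t ht
    simp only [hcst] at this
    exact_mod_cast this
  by_cases hj : j.val = 0
  · have hsj : s j = p ^ (m - (v - i)) := by
      rw [hs]
      exact if_pos hj
    rw [hsj]
    refine cnd_count p m (v - i) hpp (by omega) (b j : ℤ) _ fun x hx => ?_
    obtain ⟨a, ha, hab, rfl⟩ := hmem x hx
    obtain ⟨ha1, ha2, ha3⟩ := hS a ha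
    refine ⟨by positivity, by exact_mod_cast ha1 j, ?_⟩
    have hF : Fp a = Fp b := by
      unfold Fp
      refine Finset.sum_congr rfl fun t _ => ?_
      by_cases ht : t.val = 0
      · rw [if_pos ht, if_pos ht]
      · rw [if_neg ht, if_neg ht, hab t]
        have : j.val < t.val := by omega
        exact this
    have h6 := dvd_sub (hb3 j hj) (ha3 j hj)
    rw [hF] at h6
    rwa [show -(b j : ℤ) - (Polynomial.derivative (Fp b)).eval (y : ℤ) -
      (-(a j : ℤ) - (Polynomial.derivative (Fp b)).eval (y : ℤ)) = (a j : ℤ) - b j by ring] at h6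
  · have hsj : s j = p ^ (m - (v - i * (j.val + 1))) := by
      rw [hs]
      exact if_neg hj
    rw [hsj]
    refine cnd_count p m (v - i * (j.val + 1)) hpp (by omega) (b j : ℤ) _ fun x hx => ?_
    obtain ⟨a, ha, hab, rfl⟩ := hmem x hx
    obtain ⟨ha1, ha2, ha3⟩ := hS a ha
    refine ⟨by positivity, by exact_mod_cast ha1 j, ?_⟩
    have h7 := dvd_sub (ha2 (j.val + 1) (by omega)) (hb2 (j.val + 1) (by omega))
    rw [hVAL.2.1, hVAL.2.1, ← mul_sub, cnd_diff d a b j hj hab] at h7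
    by_cases hle : v ≤ i * (j.val + 1)
    · rw [Nat.sub_eq_zero_of_le hle, pow_zero]
      exact one_dvd _
    · have h8 : (p : ℤ) ^ v = (p : ℤ) ^ (i * (j.val + 1)) * (p : ℤ) ^ (v - i * (j.val + 1)) := by
        rw [← pow_add]
        congr 1
        omega
      rw [h8] at h7
      exact (mul_dvd_mul_iff_left (pow_ne_zero _ hpz)).1 h7

theorem pf_CND (h1 : T_TRI) (hVAL : Pool.Agent.H26.LV.T_VAL) : T_CND := by
  intro d p m i v y hd hp hiv hvm
  classical
  apply cnd_main h1 hVAL d p m i v y hd hp hiv hvm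
  intro a ha
  have ha' := Finset.mem_filter.1 ha
  exact ⟨fun j => Finset.mem_range.1 (Fintype.mem_piFinset.1 ha'.1 j), ha'.2.1, ha'.2.2⟩

end Pool.Agent.H49.EN
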